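import Pool.Agent.H22.LG.Stm

set_option autoImplicit false

namespace H40.LG
open H22.LG

theorem t_UPB : S_UPB := by
  intro F _ _ _ n G _ _ D
  have h1 : Nat.card G ≤ Nat.card D.E := Nat.card_le_card_of_surjective D.π D.sur
  have h2 : Nat.card D.E ≤ Nat.card (Matrix.GeneralLinearGroup (Fin n) F) :=
    Nat.card_le_card_of_injective _ Subtype.val_injective
  have h3 : Nat.card (Matrix.GeneralLinearGroup (Fin n) F) ≤ Nat.card (Matrix (Fin n) (Fin n) F) :=
    Nat.card_le_card_of_injective (fun g : Matrix.GeneralLinearGroup (Fin n) F => g.1)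
      (fun a b h => Units.ext h)
  have h4 : Nat.card (Matrix (Fin n) (Fin n) F) = Fintype.card F ^ (n * n) := by
    rw [Nat.card_eq_fintype_card]
    show Fintype.card (Fin n → Fin n → F) = _
    rw [Fintype.card_fun, Fintype.card_fun, Fintype.card_fin, ← pow_mul]
  omega

end H40.LG
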